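import Pool.Agent.H.MP_a7a5c5_an.A

set_option autoImplicit false

namespace Pool.Agent.Results.MP_a7a5c5_an.No

universe u v

theorem result (X : Type u) [NormedAddCommGroup X] [NormedSpace ℝ X]
    (Y : Type v) [NormedAddCommGroup Y] [NormedSpace ℝ Y] [UniformConvexSpace Y]
    (e : UniformSpace.Completion X ≃L[ℝ] Y) :
    ∃ r : ℝ, r < 2 ∧ 0 < r ∧ ∃ P : Set X,
      (∀ p ∈ P, ∀ q ∈ P, p ≠ q → 2 ≤ ‖p - q‖) ∧ ∀ x : X, ∃ p ∈ P, ‖x - p‖ ≤ r := by
  refine Pool.Agent.H.MP_a7a5c5_an.main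
    ((e : UniformSpace.Completion X →L[ℝ] Y).comp UniformSpace.Completion.toComplL)
    (c := (‖(e.symm : Y →L[ℝ] UniformSpace.Completion X)‖ + 1)⁻¹) (by positivity) fun x => ?_
  have := (e.symm : Y →L[ℝ] UniformSpace.Completion X).le_opNorm (e x)
  rw [inv_mul_le_iff₀ (by positivity)]
  simp at this ⊢
  nlinarith [norm_nonneg (e x)]

end Pool.Agent.Results.MP_a7a5c5_an.No
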